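import Pool.Agent.MGP.Stmts

set_option autoImplicit false

/-!
# MP_5f6ee5_nt, row GOD: the good rectangle
-/

namespace Pool.Agent.MGP.H24

/-- Two disjoint intervals of small total variation cannot both contain a class change. -/
theorem excl (hmon : MonStmt) (hvar : VarStmt) {N a' a b' b : ℕ} (hN : 0 < N) (h1 : N ≤ a')
    (h2 : a' ≤ a) (h3 : a ≤ b') (h4 : b' ≤ b) (hv : ((b : ℤ) - a') * (b - N) < N) :
    cl N a' = cl N a ∨ cl N b' = cl N b := by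
  have m1 := hmon N a' a (by omega) h1 h2
  have m2 := hmon N a b' (by omega) (by omega) h3
  have m3 := hmon N b' b (by omega) (by omega) h4
  have v : cl N b ≤ cl N a' + 1 := by
    apply hvar N a' b (by omega) h1 (by omega)
    zify [show a' ≤ b by omega, show N ≤ b by omega]
    exact hv
  omega

/-- The propositional pigeonhole. -/
theorem pig {a0 a1 a2 a3 b0 b1 b2 b3 c0 c1 c2 c3 : Prop}
    (a01 : a0 ∨ a1) (a02 : a0 ∨ a2) (a03 : a0 ∨ a3) (a12 : a1 ∨ a2) (a13 : a1 ∨ a3) (a23 : a2 ∨ a3)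
    (b01 : b0 ∨ b1) (b02 : b0 ∨ b2) (b03 : b0 ∨ b3) (b12 : b1 ∨ b2) (b13 : b1 ∨ b3) (b23 : b2 ∨ b3)
    (c01 : c0 ∨ c1) (c02 : c0 ∨ c2) (c03 : c0 ∨ c3) (c12 : c1 ∨ c2) (c13 : c1 ∨ c3)
    (c23 : c2 ∨ c3) :
    (a0 ∧ b0 ∧ c0) ∨ (a1 ∧ b1 ∧ c1) ∨ (a2 ∧ b2 ∧ c2) ∨ (a3 ∧ b3 ∧ c3) := by
  have three : ∀ {x0 x1 x2 x3 : Prop}, (x0 ∨ x1) → (x0 ∨ x2) → (x0 ∨ x3) → (x1 ∨ x2) → (x1 ∨ x3) →
      (x2 ∨ x3) → (x1 ∧ x2 ∧ x3) ∨ (x0 ∧ x2 ∧ x3) ∨ (x0 ∧ x1 ∧ x3) ∨ (x0 ∧ x1 ∧ x2) := by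
    intro x0 x1 x2 x3 h01 h02 h03 h12 h13 h23
    by_cases X0 : x0
    · by_cases X1 : x1
      · rcases h23 with h | h
        · exact Or.inr (Or.inr (Or.inr ⟨X0, X1, h⟩))
        · exact Or.inr (Or.inr (Or.inl ⟨X0, X1, h⟩))
      · exact Or.inr (Or.inl ⟨X0, h12.resolve_left X1, h13.resolve_left X1⟩)
    · exact Or.inl ⟨h01.resolve_left X0, h02.resolve_left X0, h03.resolve_left X0⟩
  rcases three a01 a02 a03 a12 a13 a23 with ⟨p, q, r⟩ | ⟨p, q, r⟩ | ⟨p, q, r⟩ | ⟨p, q, r⟩ <;>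
    rcases three b01 b02 b03 b12 b13 b23 with ⟨s, t, u⟩ | ⟨s, t, u⟩ | ⟨s, t, u⟩ | ⟨s, t, u⟩ <;>
    rcases three c01 c02 c03 c12 c13 c23 with ⟨v, w, x⟩ | ⟨v, w, x⟩ | ⟨v, w, x⟩ | ⟨v, w, x⟩ <;>
    first
      | exact Or.inl ⟨by assumption, by assumption, by assumption⟩
      | exact Or.inr (Or.inl ⟨by assumption, by assumption, by assumption⟩)
      | exact Or.inr (Or.inr (Or.inl ⟨by assumption, by assumption, by assumption⟩))
      | exact Or.inr (Or.inr (Or.inr ⟨by assumption, by assumption, by assumption⟩))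

/-- The data of one scale. -/
structure Dat (H σ K t h c : ℕ) : Prop where
  ht : t = c + h + 2
  sc : Sc σ K t h
  oddr : Odd (t + h)
  oddc : Odd c
  lo : (t + h + 2) * c < σ
  up : σ < (t + h) * (c + 2)
  up' : (t + h) * (c + 2) ≤ σ + 40 * H
  lo' : σ ≤ (t + h + 2) * c + 40 * H
  hc : 100 * H ≤ c
  hcr : c + 1000 ≤ t + h

theorem dat {N z H E σ K t h : ℕ} (hprb : PrbStmt) (hp : Par N z H E) (hHK : H ≤ K)
    (hK : K ≤ 8 * H) (hz : z ≤ t) (hs : Sc σ K t h) : ∃ c : ℕ, Dat H σ K t h c := by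
  obtain ⟨hz', -, -, -⟩ := hprb N z H E hp
  obtain ⟨-, -, -, -, -, hH, -⟩ := hp
  have hs' := hs
  obtain ⟨ho, hlo, hup, hk1, hk2⟩ := hs
  obtain ⟨c, hc⟩ : ∃ c, t = c + h + 2 := ⟨t - h - 2, by omega⟩
  have e1 : (t + h + 2) * c + (h + 2) ^ 2 = t ^ 2 := by rw [hc]; ring
  have e2 : (t + h) * (c + 2) + h ^ 2 = t ^ 2 := by rw [hc]; ring
  have e3 : (t + h) * (c + 2) = (t + h + 2) * c + (4 * h + 4) := by rw [hc]; ring
  have hh : 4 * h + 4 ≤ 40 * H := by omega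
  refine ⟨c, hc, hs', ho, ?_, by omega, by omega, by omega, by omega, by omega, by omega⟩
  obtain ⟨k, hk⟩ := ho
  rw [Nat.odd_iff]
  omega

theorem pair (hmon : MonStmt) (hvar : VarStmt) (hsep : SepStmt) (hvrs : VrsStmt)
    {N z H E σ K K' t t' h h' c c' : ℕ} (hp : Par N z H E) (h1 : N ≤ σ) (h2 : σ ≤ N + E + 1)
    (hK' : H ≤ K') (hKK : 2 * K' ≤ K) (hK : K ≤ 8 * H) (hz : z ≤ t') (htt : t' ≤ t)
    (h101 : 100 * t ≤ 101 * z) (d : Dat H σ K t h c) (d' : Dat H σ K' t' h' c') :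
    (cl N ((t + h + 22) * c) = cl N ((t + h + 20) * (c + 2)) ∨
      cl N ((t' + h' + 22) * c') = cl N ((t' + h' + 20) * (c' + 2))) ∧
    (cl N ((t + h + 2) * (c + 40)) = cl N ((t + h) * (c + 42)) ∨
      cl N ((t' + h' + 2) * (c' + 40)) = cl N ((t' + h') * (c' + 42))) ∧
    (cl N ((t + h + 22) * (c + 40)) = cl N ((t + h + 20) * (c + 42)) ∨
      cl N ((t' + h' + 22) * (c' + 40)) = cl N ((t' + h' + 20) * (c' + 42))) := by
  obtain ⟨s1, s2, s3⟩ := hsep N z H E σ K K' t t' h h' hp h1 hK' hKK hK hz htt d.sc d'.sc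
  obtain ⟨v1, v2, v3⟩ := hvrs N z H E σ K K' t t' h h' hp h1 h2 hK' hKK hK hz htt h101 d.sc d'.sc
  obtain ⟨-, hz1, hz2, hz3, -, hH, -⟩ := hp
  have hN : 0 < N := by nlinarith
  have ht := d.ht
  have ht' := d'.ht
  have hc := d.hc
  have hc' := d'.hc
  have hcr := d.hcr
  have hcr' := d'.hcr
  have hlo := d.lo'
  have hlo' := d'.lo'
  have i1 : (t : ℤ) - h - 2 = c := by rw [ht]; push_cast; ring
  have i2 : (t : ℤ) - h = c + 2 := by rw [ht]; push_cast; ring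
  have i3 : (t : ℤ) - h + 38 = c + 40 := by rw [ht]; push_cast; ring
  have i4 : (t : ℤ) - h + 40 = c + 42 := by rw [ht]; push_cast; ring
  have j1 : (t' : ℤ) - h' - 2 = c' := by rw [ht']; push_cast; ring
  have j2 : (t' : ℤ) - h' = c' + 2 := by rw [ht']; push_cast; ring
  have j3 : (t' : ℤ) - h' + 38 = c' + 40 := by rw [ht']; push_cast; ring
  have j4 : (t' : ℤ) - h' + 40 = c' + 42 := by rw [ht']; push_cast; ring
  have s1' : (t + h + 20) * (c + 2) < (t' + h' + 22) * c' := by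
    rw [i2, j1] at s1
    exact_mod_cast s1
  have s2' : (t' + h') * (c' + 42) < (t + h + 2) * (c + 40) := by
    rw [j4, i3] at s2
    exact_mod_cast s2
  have s3' : (t' + h' + 20) * (c' + 42) < (t + h + 22) * (c + 40) := by
    rw [j4, i3] at s3
    exact_mod_cast s3
  rw [i1, j2] at v1
  rw [i4, j3] at v2 v3
  have b1 : N ≤ (t + h + 2) * c + 20 * c := by omega
  have b2 : N ≤ (t' + h' + 2) * c' + 20 * c' := by omega
  clear hlo hlo' s1 s2 s3 hc hc' d d'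
  have f1 : (t + h + 22) * c = (t + h + 2) * c + 20 * c := by ring
  have f2 : (t + h + 20) * (c + 2) = (t + h + 2) * c + 18 * c + 2 * (t + h) + 40 := by ring
  have f3 : (t + h + 2) * (c + 40) = (t + h + 2) * c + 40 * (t + h) + 80 := by ring
  have f4 : (t + h) * (c + 42) + 2 * c = (t + h + 2) * c + 42 * (t + h) := by ring
  have f5 : (t + h + 22) * (c + 40) = (t + h + 2) * c + 20 * c + 40 * (t + h) + 880 := by ring
  have f6 : (t + h + 20) * (c + 42) = (t + h + 2) * c + 18 * c + 42 * (t + h) + 840 := by ring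
  have g1 : (t' + h' + 22) * c' = (t' + h' + 2) * c' + 20 * c' := by ring
  have g2 : (t' + h' + 20) * (c' + 2) = (t' + h' + 2) * c' + 18 * c' + 2 * (t' + h') + 40 := by
    ring
  have g3 : (t' + h' + 2) * (c' + 40) = (t' + h' + 2) * c' + 40 * (t' + h') + 80 := by ring
  have g4 : (t' + h') * (c' + 42) + 2 * c' = (t' + h' + 2) * c' + 42 * (t' + h') := by ring
  have g5 : (t' + h' + 22) * (c' + 40) =
      (t' + h' + 2) * c' + 20 * c' + 40 * (t' + h') + 880 := by ring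
  have g6 : (t' + h' + 20) * (c' + 42) =
      (t' + h' + 2) * c' + 18 * c' + 42 * (t' + h') + 840 := by ring
  refine ⟨?_, ?_, ?_⟩
  · refine excl hmon hvar hN ?_ ?_ s1'.le ?_ ?_
    · omega
    · omega
    · omega
    · push_cast
      exact v1
  · refine (excl hmon hvar hN ?_ ?_ s2'.le ?_ ?_).symm
    · omega
    · omega
    · omega
    · push_cast
      exact v2
  · refine (excl hmon hvar hN ?_ ?_ s3'.le ?_ ?_).symm
    · omega
    · omega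
    · omega
    · push_cast
      exact v3

theorem god : PrbStmt → MonStmt → VarStmt → SclStmt → SepStmt → VrsStmt → GodStmt := by
  intro hprb hmon hvar hscl hsep hvrs N z H E σ hp he h1 h2
  have mk : ∀ K : ℕ, H ≤ K → K ≤ 8 * H → ∃ h c : ℕ, z ≤ Nat.sqrt (σ + K ^ 2) + 1 ∧
      100 * (Nat.sqrt (σ + K ^ 2) + 1) ≤ 101 * z ∧ Dat H σ K (Nat.sqrt (σ + K ^ 2) + 1) h c := by
    intro K hK1 hK2
    obtain ⟨a1, a2, h, hs⟩ := hscl N z H E σ K _ hp he h1 h2 hK1 hK2 rfl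
    obtain ⟨c, hc⟩ := dat hprb hp hK1 hK2 a1 hs
    exact ⟨h, c, a1, a2, hc⟩
  have mono : ∀ K K' : ℕ, K' ≤ K → Nat.sqrt (σ + K' ^ 2) + 1 ≤ Nat.sqrt (σ + K ^ 2) + 1 := by
    intro K K' h
    have := Nat.pow_le_pow_left h 2
    have := Nat.sqrt_le_sqrt (show σ + K' ^ 2 ≤ σ + K ^ 2 by omega)
    omega
  have fin : ∀ K t h c : ℕ, Dat H σ K t h c →
      (cl N ((t + h + 22) * c) = cl N ((t + h + 20) * (c + 2)) ∧
      cl N ((t + h + 2) * (c + 40)) = cl N ((t + h) * (c + 42)) ∧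
      cl N ((t + h + 22) * (c + 40)) = cl N ((t + h + 20) * (c + 42))) →
      ∃ r c : ℕ, Odd r ∧ Odd c ∧ (r + 2) * c < σ ∧ σ < r * (c + 2) ∧ r * (c + 2) ≤ σ + 40 * H ∧
        σ ≤ (r + 2) * c + 40 * H ∧ 100 * H ≤ c ∧ c + 1000 ≤ r ∧
        cl N ((r + 22) * c) = cl N ((r + 20) * (c + 2)) ∧
        cl N ((r + 2) * (c + 40)) = cl N (r * (c + 42)) ∧
        cl N ((r + 22) * (c + 40)) = cl N ((r + 20) * (c + 42)) := by
    intro K t h c d hg
    exact ⟨t + h, c, d.oddr, d.oddc, d.lo, d.up, d.up', d.lo', d.hc, d.hcr, hg.1, hg.2.1, hg.2.2⟩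
  obtain ⟨h0, c0, z0, w0, d0⟩ := mk (8 * H) (by omega) (by omega)
  obtain ⟨g1, c1, z1, w1, d1⟩ := mk (4 * H) (by omega) (by omega)
  obtain ⟨g2, c2, z2, w2, d2⟩ := mk (2 * H) (by omega) (by omega)
  obtain ⟨g3, c3, z3, w3, d3⟩ := mk H (by omega) (by omega)
  obtain ⟨a01, b01, e01⟩ := pair hmon hvar hsep hvrs hp h1 h2 (by omega) (by omega) (by omega) z1
    (mono (8 * H) (4 * H) (by omega)) w0 d0 d1
  obtain ⟨a02, b02, e02⟩ := pair hmon hvar hsep hvrs hp h1 h2 (by omega) (by omega) (by omega) z2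
    (mono (8 * H) (2 * H) (by omega)) w0 d0 d2
  obtain ⟨a03, b03, e03⟩ := pair hmon hvar hsep hvrs hp h1 h2 (by omega) (by omega) (by omega) z3
    (mono (8 * H) H (by omega)) w0 d0 d3
  obtain ⟨a12, b12, e12⟩ := pair hmon hvar hsep hvrs hp h1 h2 (by omega) (by omega) (by omega) z2
    (mono (4 * H) (2 * H) (by omega)) w1 d1 d2
  obtain ⟨a13, b13, e13⟩ := pair hmon hvar hsep hvrs hp h1 h2 (by omega) (by omega) (by omega) z3
    (mono (4 * H) H (by omega)) w1 d1 d3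
  obtain ⟨a23, b23, e23⟩ := pair hmon hvar hsep hvrs hp h1 h2 (by omega) (by omega) (by omega) z3
    (mono (2 * H) H (by omega)) w2 d2 d3
  rcases pig a01 a02 a03 a12 a13 a23 b01 b02 b03 b12 b13 b23 e01 e02 e03 e12 e13 e23 with
    h | h | h | h
  · exact fin _ _ _ _ d0 h
  · exact fin _ _ _ _ d1 h
  · exact fin _ _ _ _ d2 h
  · exact fin _ _ _ _ d3 h

end Pool.Agent.MGP.H24
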